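import Pool.Agent.H71.CR.Stmt

/-! COP: copies of tuples. -/

set_option autoImplicit false

open Set Pool.Agent.TK Pool.Agent.H71.VK

namespace Pool.Agent.CR

theorem pf_COP : T_COP := by
  intro n c Sm G π B hB w T
  classical
  obtain ⟨σ, h1, h2⟩ := exists_off (G.sup B) (G.sup (w ++ B) \ G.sup B) T
    Finset.disjoint_sdiff
  obtain ⟨h, hh, hfix⟩ := G.surj B σ h1
  have hBm : B.map h = B := map_fix hfix
  have heq : w.map h ++ B = (w ++ B).map h := by rw [List.map_append, hBm]
  refine ⟨(h, σ), hh, hfix, h1, ?_, ?_, ?_⟩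
  · intro j hj hjB
    change j ∈ G.sup (w.map h ++ B) at hj
    rw [heq] at hj
    have e : σ (σ.symm j) = j := by simp
    have h3 : σ.symm j ∈ G.sup (w ++ B) := by
      rw [G.eqv (h, σ) hh (w ++ B)]
      change σ (σ.symm j) ∈ G.sup ((w ++ B).map h)
      rw [e]
      exact hj
    have h4 : σ.symm j ∉ G.sup B := by
      intro h5
      have h6 := h1 _ h5
      rw [e] at h6
      rw [h6] at hjB
      exact hjB h5
    have h5 := h2 _ (Finset.mem_sdiff.2 ⟨h3, h4⟩)
    rw [e] at h5
    exact h5
  · refine pl_map (h := h) (G.aut _ hh) ?_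
    intro z hz
    rcases List.mem_append.1 hz with h3 | h3
    · have h4 := mem_dg.1 h3
      rw [hfix _ h4.2]
      exact h4.1.symm
    · obtain ⟨i, hx, hy, rfl⟩ := zip_get h3
      simp
  · intro hm b hb
    change b ∈ w.map h at hb
    obtain ⟨a, ha, rfl⟩ := List.mem_map.1 hb
    obtain ⟨h3, h4⟩ := hm a ha
    refine ⟨?_, ?_⟩
    · rw [← st_fix h (G.aut _ hh) (π := π) (fun z hz => hfix z (hB hz))]
      exact ⟨a, h3, rfl⟩
    · intro h5
      apply h4
      intro j hj
      have h6 := (G.eqv _ hh (a :: B) j).1 hj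
      simp only [List.map_cons] at h6
      rw [hBm] at h6
      have h7 := h5 h6
      have h8 := h1 _ h7
      have h9 : σ j = j := σ.injective h8
      rw [h9] at h7
      exact h7

end Pool.Agent.CR
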