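import Pool.Agent.H71.CR.Stmt

/-! FAR: a mobile tuple has a copy which is mobile over a given list. -/

set_option autoImplicit false

open Set Pool.Agent.TK Pool.Agent.H71.VK

namespace Pool.Agent.CR

theorem pf_FAR (hCOP : T_COP) : T_FAR := by
  intro n c Sm G π B hB w hw Y
  obtain ⟨p, hp, h1, h2, h3, h4, h5⟩ := hCOP n c Sm G π B hB w (G.sup (Y ++ B))
  have h6 := h5 hw
  refine ⟨w.map p.1, (List.length_map _).symm, h4, h6, ?_, ?_⟩
  · intro j hj hj'
    by_contra h7
    exact h3 j hj' h7 hj
  · intro X hBX hXY a ha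
    obtain ⟨h7, h8⟩ := h6 a ha
    refine ⟨h7, fun h9 => ?_⟩
    obtain ⟨j, hj, hjB⟩ := Finset.not_subset.1 h8
    have h10 : j ∈ G.sup (w.map p.1 ++ B) := G.mono _ _ (by
      intro b hb
      rcases List.mem_cons.1 hb with rfl | hb
      · exact List.mem_append_left _ ha
      · exact List.mem_append_right _ hb) hj
    have h11 := h3 j h10 hjB
    apply h11
    refine G.mono _ _ hXY (h9 (G.mono _ _ ?_ hj))
    intro b hb
    rcases List.mem_cons.1 hb with rfl | hb
    · exact List.mem_cons_self
    · exact List.mem_cons_of_mem _ (hBX hb)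

end Pool.Agent.CR
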