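import Pool.Agent.H71.CR.Stmt

/-! SAT: saturated bases exist. -/

set_option autoImplicit false

open Set Pool.Agent.TK Pool.Agent.H71.VK

namespace Pool.Agent.CR

private lemma h43_dg_mono {c : Lf} {L L' : List ℕ} {p : List (ℕ × ℕ)} (h : L ⊆ L')
    (hp : Pl c c (dg L' ++ p)) : Pl c c (dg L ++ p) := hp.mono (by
  intro z hz
  rcases List.mem_append.1 hz with h1 | h1
  · have h2 := mem_dg.1 h1
    exact List.mem_append_left _ (mem_dg.2 ⟨h2.1, h h2.2⟩)
  · exact List.mem_append_right _ h1)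

theorem pf_SAT (hREP : T_REP) (hFAR : T_FAR) (hUNQ : T_UNQ) : T_SAT := by
  intro n c Sm G π hv hgood E hE hcov
  classical
  obtain ⟨Z', hZ', v, hvP, hvs⟩ := GS.good hgood (dl π ++ E.flatten)
  obtain ⟨B0, hB0⟩ : ∃ B0 : List ℕ, B0 = dl π ++ E.flatten := ⟨_, rfl⟩
  rw [← hB0] at hZ'
  have hdB0 : dl π ⊆ B0 := by rw [hB0]; exact List.subset_append_left _ _
  have hEB0 : E.flatten ⊆ B0 := by rw [hB0]; exact List.subset_append_right _ _
  obtain ⟨E1, hE1, hrep⟩ := hREP n c G.lb B0 n.2 (fun x => ∀ a ∈ x, a ∈ st c π)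
  let τ : List ℕ → Finset (Fin E1.length) := fun X => Finset.univ.filter fun i =>
    ∃ w : List ℕ, w.length ≤ n.2 ∧ G.Mb π X w ∧ w.length = (E1[i]).length ∧
      Pl c c (dg B0 ++ w.zip E1[i])
  have hτ : ∀ (X : List ℕ) (i : Fin E1.length), i ∈ τ X ↔ ∃ w : List ℕ, w.length ≤ n.2 ∧
      G.Mb π X w ∧ w.length = (E1[i]).length ∧ Pl c c (dg B0 ++ w.zip E1[i]) := by
    intro X i
    simp only [τ, Finset.mem_filter, Finset.mem_univ, true_and]
  have hmono : ∀ X X' : List ℕ, B0 ⊆ X → X ⊆ X' → τ X ⊆ τ X' := by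
    intro X X' h1 h2 i hi
    obtain ⟨w, h3, h4, h5, h6⟩ := (hτ X i).1 hi
    obtain ⟨w', h7, h8, -, -, h9⟩ := hFAR n c Sm G π X (fun a ha => h1 (hdB0 ha)) w h4 X'
    refine (hτ X' i).2 ⟨w', by omega, h9 X' h2 (List.subset_append_left _ _), by omega, ?_⟩
    exact (h43_dg_mono h1 h8).zip_symm.zip_trans (by omega) h6
  obtain ⟨X1, hX1, hmax⟩ : ∃ X1 : List ℕ, Z' ⊆ X1 ∧
      ∀ X : List ℕ, Z' ⊆ X → (τ X).card ≤ (τ X1).card := by
    obtain ⟨X1, h1, h2⟩ := WellFounded.has_min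
      (measure (fun X : List ℕ => E1.length - (τ X).card)).wf {X : List ℕ | Z' ⊆ X}
      ⟨Z', fun a ha => ha⟩
    refine ⟨X1, h1, fun X hX => ?_⟩
    have h3 : ¬ (E1.length - (τ X).card < E1.length - (τ X1).card) := h2 X hX
    have h4 : (τ X).card ≤ E1.length := by
      have := Finset.card_le_univ (τ X)
      rwa [Fintype.card_fin] at this
    have h5 : (τ X1).card ≤ E1.length := by
      have := Finset.card_le_univ (τ X1)
      rwa [Fintype.card_fin] at this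
    omega
  have hB0X : B0 ⊆ X1 := fun a ha => hX1 (hZ' ha)
  have hdX : dl π ⊆ X1 := fun a ha => hB0X (hdB0 ha)
  refine ⟨X1, hv, hdX, ?_, ?_, ?_⟩
  · intro X hX w w' hlen hw hw' hpl
    exact hUNQ n c Sm G π hv E hE hcov X1 hdX (fun a ha => hB0X (hEB0 ha)) X hX w w' hlen hw
      hw' hpl
  · intro X hX w hwl hw
    obtain ⟨e, he, hel, hepl⟩ := hrep w hwl (fun a ha => (hw a ha).1)
    obtain ⟨i, hi, rfl⟩ := List.mem_iff_getElem.1 he
    have h1 : (⟨i, hi⟩ : Fin E1.length) ∈ τ X :=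
      (hτ X ⟨i, hi⟩).2 ⟨w, hwl, hw, hel.symm, hepl⟩
    have h2 : τ X1 = τ X := Finset.eq_of_subset_of_card_le (hmono X1 X hB0X hX)
      (hmax X fun a ha => hX (hX1 ha))
    rw [← h2] at h1
    obtain ⟨w', h3, h4, h5, h6⟩ := (hτ X1 ⟨i, hi⟩).1 h1
    have h5' : w'.length = (E1[i]).length := h5
    have h6' : Pl c c (dg B0 ++ w'.zip E1[i]) := h6
    obtain ⟨w2, h7, h8, -, -, h9⟩ := hFAR n c Sm G π X1 hdX w' h4 X
    have h10 := h9 X hX (List.subset_append_left _ _)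
    have h11 : Pl c c (dg B0 ++ w.zip w2) :=
      (hepl.zip_trans hel.symm h6'.zip_symm).zip_trans (by omega) (h43_dg_mono hB0X h8)
    have h12 := hUNQ n c Sm G π hv E hE hcov B0 hdB0 hEB0 X (fun a ha => hX (hB0X ha)) w w2
      (by omega) hw h10 h11
    exact ⟨w', h4, by omega, (h43_dg_mono hX h12).zip_trans (by omega) h8.zip_symm⟩
  · obtain ⟨w', h7, h8, -, -, h9⟩ := hFAR n c Sm G π Z' (fun a ha => hZ' (hdB0 ha)) [v] (by
      intro a ha
      rw [List.mem_singleton] at ha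
      rw [ha]
      exact ⟨hvP, hvs⟩) X1
    have h10 := h9 X1 hX1 (List.subset_append_left _ _)
    have h11 : w'.length = 1 := h7.symm
    obtain ⟨u, hu⟩ := List.length_eq_one_iff.1 h11
    rw [hu] at h10
    exact ⟨u, h10⟩

end Pool.Agent.CR
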