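import Pool.Agent.H71.CR.Stmt

/-! UNQ: the type of a mobile tuple is determined by its type over the representatives. -/

set_option autoImplicit false

open Set Pool.Agent.TK Pool.Agent.H71.VK

namespace Pool.Agent.CR

private lemma h43_zip_mid {a b d : List ℕ} (hab : a.length = b.length) {z : ℕ × ℕ}
    (hz : z ∈ a.zip d) : ∃ m, (z.1, m) ∈ a.zip b ∧ (m, z.2) ∈ b.zip d := by
  obtain ⟨i, hx, hw, rfl⟩ := zip_get hz
  exact ⟨b[i]'(by omega), get_zip hx (by omega), get_zip (by omega) hw⟩

private lemma h43_zip_l {a b : List ℕ} {z : ℕ × ℕ} (hz : z ∈ a.zip b) : z.1 ∈ a := by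
  obtain ⟨i, hx, hw, rfl⟩ := zip_get hz
  simp

private lemma h43_zip_r {a b : List ℕ} {z : ℕ × ℕ} (hz : z ∈ a.zip b) : z.2 ∈ b := by
  obtain ⟨i, hx, hw, rfl⟩ := zip_get hz
  simp

/-- a copy outside a set of the ideal -/
private lemma h43_off (hCOP : T_COP) {n : Bd} {c : Lf} {Sm : Pr → Prop} (G : GS n c Sm) (π : Pr)
    (X : List ℕ) (hX : dl π ⊆ X) (w : List ℕ) (hw : G.Mb π X w) (N : Set ℕ) (hN : G.Nn N) :
    ∃ w1 : List ℕ, w.length = w1.length ∧ Pl c c (dg X ++ w.zip w1) ∧
      ∀ a ∈ w1, a ∈ st c π ∧ a ∉ N := by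
  obtain ⟨Z0, hZ⟩ := hN
  obtain ⟨p, hp, h1, h2, h3, h4, h5⟩ := hCOP n c Sm G π X hX w (G.sup (Z0 ++ X))
  have h6 := h5 hw
  refine ⟨w.map p.1, (List.length_map _).symm, h4, ?_⟩
  intro a ha
  obtain ⟨h7, h8⟩ := h6 a ha
  refine ⟨h7, fun h9 => ?_⟩
  obtain ⟨j, hj, hjB⟩ := Finset.not_subset.1 h8
  have h10 : j ∈ G.sup (w.map p.1 ++ X) := G.mono _ _ (by
    intro b hb
    rcases List.mem_cons.1 hb with rfl | hb
    · exact List.mem_append_left _ ha
    · exact List.mem_append_right _ hb) hj
  apply h3 j h10 hjB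
  refine hZ (Z0 ++ X) (List.subset_append_left _ _) a h9 (G.mono _ _ ?_ hj)
  intro b hb
  rcases List.mem_cons.1 hb with rfl | hb
  · exact List.mem_cons_self
  · exact List.mem_cons_of_mem _ (List.mem_append_right _ hb)

theorem pf_UNQ (hCOP : T_COP) : T_UNQ := by
  intro n c Sm G π hv E hE hcov B hB hEB X hBX w w' hlen hw hw' hpl
  classical
  have hdX : dl π ⊆ X := fun a ha => hBX (hB ha)
  have hzB : zl π ⊆ B := fun a ha => hB (zl_sub_dl π ha)
  have hzX : zl π ⊆ X := fun a ha => hBX (hzB ha)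
  -- the main claim
  have key : ∀ x : List ℕ, x.length ≤ n.2 → (∀ a ∈ x, a ∈ st c π) → (∀ a ∈ x, a ∈ X) →
      Pl c c (dg (zl π) ++ (dg x ++ w.zip w')) := by
    intro x hx hxP hxX
    obtain ⟨e, he, N, hN, hso⟩ := hcov x hx hxP
    obtain ⟨w1, hl1, hp1, hw1⟩ := h43_off hCOP G π X hdX w hw N hN
    obtain ⟨w2, hl2, hp2, hw2⟩ := h43_off hCOP G π X hdX w' hw' N hN
    have heB : ∀ a ∈ e, a ∈ B := fun a ha => hEB (List.mem_flatten.2 ⟨e, he, ha⟩)
    have hlxe : x.length = e.length := hso.1
    -- the five positions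
    have P1 : Pl c c (dg (x ++ zl π) ++ w.zip w1) := hp1.mono (by
      intro z hz
      rcases List.mem_append.1 hz with h | h
      · have h2 := mem_dg.1 h
        refine List.mem_append_left _ (mem_dg.2 ⟨h2.1, ?_⟩)
        rcases List.mem_append.1 h2.2 with h3 | h3
        · exact hxX _ h3
        · exact hzX h3
      · exact List.mem_append_right _ h)
    have P2 : Pl c c (dg (w1 ++ zl π) ++ x.zip e) := hso.2 _ (by
      intro y hy
      rcases List.mem_append.1 hy with h | h
      · exact Or.inl (hw1 y h)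
      · exact Or.inr h)
    have P2' : Pl c c (dg (w2 ++ zl π) ++ x.zip e) := hso.2 _ (by
      intro y hy
      rcases List.mem_append.1 hy with h | h
      · exact Or.inl (hw2 y h)
      · exact Or.inr h)
    have P4 : Pl c c (dg (w2 ++ zl π) ++ e.zip x) := P2'.zip_symm
    have hB1 : Pl c c (dg B ++ w.zip w1) := hp1.mono (by
      intro z hz
      rcases List.mem_append.1 hz with h | h
      · have h2 := mem_dg.1 h
        exact List.mem_append_left _ (mem_dg.2 ⟨h2.1, hBX h2.2⟩)
      · exact List.mem_append_right _ h)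
    have hB2 : Pl c c (dg B ++ w'.zip w2) := hp2.mono (by
      intro z hz
      rcases List.mem_append.1 hz with h | h
      · have h2 := mem_dg.1 h
        exact List.mem_append_left _ (mem_dg.2 ⟨h2.1, hBX h2.2⟩)
      · exact List.mem_append_right _ h)
    have hB3 : Pl c c (dg B ++ w1.zip w2) :=
      (hB1.zip_symm.zip_trans hl1.symm hpl).zip_trans (by omega) hB2
    have P3 : Pl c c (dg (e ++ zl π) ++ w1.zip w2) := hB3.mono (by
      intro z hz
      rcases List.mem_append.1 hz with h | h
      · have h2 := mem_dg.1 h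
        refine List.mem_append_left _ (mem_dg.2 ⟨h2.1, ?_⟩)
        rcases List.mem_append.1 h2.2 with h3 | h3
        · exact heB _ h3
        · exact hzB h3
      · exact List.mem_append_right _ h)
    have P5 : Pl c c (dg (x ++ zl π) ++ w2.zip w') := hp2.zip_symm.mono (by
      intro z hz
      rcases List.mem_append.1 hz with h | h
      · have h2 := mem_dg.1 h
        refine List.mem_append_left _ (mem_dg.2 ⟨h2.1, ?_⟩)
        rcases List.mem_append.1 h2.2 with h3 | h3
        · exact hxX _ h3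
        · exact hzX h3
      · exact List.mem_append_right _ h)
    have Q2 : Pl c c (dg (zl π) ++ (x.zip e ++ w.zip w1)) := P1.comp P2 (by
      intro z hz
      rcases List.mem_append.1 hz with h | h
      · have h2 := mem_dg.1 h
        exact ⟨z.1, List.mem_append_left _ (mem_dg.2 ⟨rfl, List.mem_append_right _ h2.2⟩),
          List.mem_append_left _ (mem_dg.2 ⟨h2.1, List.mem_append_right _ h2.2⟩)⟩
      · rcases List.mem_append.1 h with h | h
        · have h5 : z.1 ∈ x := h43_zip_l h
          exact ⟨z.1, List.mem_append_left _ (mem_dg.2 ⟨rfl, List.mem_append_left _ h5⟩),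
            List.mem_append_right _ h⟩
        · exact ⟨z.2, List.mem_append_right _ h, List.mem_append_left _
            (mem_dg.2 ⟨rfl, List.mem_append_left _ (h43_zip_r h)⟩)⟩)
    have Q3 : Pl c c (dg (zl π) ++ (x.zip e ++ w.zip w2)) := Q2.comp P3 (by
      intro z hz
      rcases List.mem_append.1 hz with h | h
      · have h2 := mem_dg.1 h
        exact ⟨z.1, List.mem_append_left _ (mem_dg.2 ⟨rfl, h2.2⟩),
          List.mem_append_left _ (mem_dg.2 ⟨h2.1, List.mem_append_right _ h2.2⟩)⟩
      · rcases List.mem_append.1 h with h | h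
        · exact ⟨z.2, List.mem_append_right _ (List.mem_append_left _ h),
            List.mem_append_left _ (mem_dg.2 ⟨rfl, List.mem_append_left _ (h43_zip_r h)⟩)⟩
        · obtain ⟨m, hm1, hm2⟩ := h43_zip_mid (b := w1) hl1 h
          exact ⟨m, List.mem_append_right _ (List.mem_append_right _ hm1),
            List.mem_append_right _ hm2⟩)
    have Q4 : Pl c c (dg (zl π) ++ (x.zip x ++ w.zip w2)) := Q3.comp P4 (by
      intro z hz
      rcases List.mem_append.1 hz with h | h
      · have h2 := mem_dg.1 h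
        exact ⟨z.1, List.mem_append_left _ (mem_dg.2 ⟨rfl, h2.2⟩),
          List.mem_append_left _ (mem_dg.2 ⟨h2.1, List.mem_append_right _ h2.2⟩)⟩
      · rcases List.mem_append.1 h with h | h
        · obtain ⟨m, hm1, hm2⟩ := h43_zip_mid (b := e) hlxe h
          exact ⟨m, List.mem_append_right _ (List.mem_append_left _ hm1),
            List.mem_append_right _ hm2⟩
        · exact ⟨z.2, List.mem_append_right _ (List.mem_append_right _ h),
            List.mem_append_left _ (mem_dg.2 ⟨rfl, List.mem_append_left _ (h43_zip_r h)⟩)⟩)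
    refine Q4.comp P5 ?_
    intro z hz
    rcases List.mem_append.1 hz with h | h
    · have h2 := mem_dg.1 h
      exact ⟨z.1, List.mem_append_left _ (mem_dg.2 ⟨rfl, h2.2⟩),
        List.mem_append_left _ (mem_dg.2 ⟨h2.1, List.mem_append_right _ h2.2⟩)⟩
    · rcases List.mem_append.1 h with h | h
      · have h2 := mem_dg.1 h
        refine ⟨z.1, List.mem_append_right _ (List.mem_append_left _ ?_),
          List.mem_append_left _ (mem_dg.2 ⟨h2.1, List.mem_append_left _ h2.2⟩)⟩
        rw [← dg_eq_zip]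
        exact mem_dg.2 ⟨rfl, h2.2⟩
      · obtain ⟨m, hm1, hm2⟩ := h43_zip_mid (b := w2) (by omega) h
        exact ⟨m, List.mem_append_right _ (List.mem_append_right _ hm1),
          List.mem_append_right _ hm2⟩
  -- the labels of a list
  intro s hs
  by_cases hsn : n.2 < s.length
  · rw [G.lb.ar _ (by rw [List.length_map]; exact hsn), G.lb.ar _ (by
      rw [List.length_map]; exact hsn)]
  push Not at hsn
  let x := (s.filter fun z => decide (z.1 = z.2 ∧ z.1 ∈ X ∧ z.1 ∈ st c π)).map Prod.fst
  let D := (s.filter fun z => decide (z.1 = z.2 ∧ z.1 ∈ X ∧ z.1 ∉ st c π)).map Prod.fst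
  have hx : ∀ a ∈ x, a ∈ X ∧ a ∈ st c π := by
    intro a ha
    obtain ⟨z, hz, rfl⟩ := List.mem_map.1 ha
    exact (of_decide_eq_true (List.mem_filter.1 hz).2).2
  have hD : ∀ a ∈ D, a ∉ st c π := by
    intro a ha
    obtain ⟨z, hz, rfl⟩ := List.mem_map.1 ha
    exact (of_decide_eq_true (List.mem_filter.1 hz).2).2.2
  have hxl : x.length ≤ n.2 := by
    have h1 : x.length ≤ s.length := by
      change (List.map _ _).length ≤ _
      rw [List.length_map]
      exact List.length_filter_le _ _
    omega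
  have h1 := key x hxl (fun a ha => (hx a ha).2) (fun a ha => (hx a ha).1)
  have h2 := ctl hv (p := dg x ++ w.zip w') (by
    intro z hz
    rcases List.mem_append.1 hz with h | h
    · have h3 := mem_dg.1 h
      have h4 := (hx _ h3.2).2
      exact ⟨h4, h3.1 ▸ h4⟩
    · exact ⟨(hw _ (h43_zip_l h)).1, (hw' _ (h43_zip_r h)).1⟩) h1 hD
  refine h2 s ?_
  intro z hz
  rcases List.mem_append.1 (hs z hz) with h | h
  · have h3 := mem_dg.1 h
    by_cases h4 : z.1 ∈ st c π
    · refine List.mem_append_right _ (List.mem_append_right _ (List.mem_append_left _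
        (mem_dg.2 ⟨h3.1, ?_⟩)))
      exact List.mem_map.2 ⟨z, List.mem_filter.2 ⟨hz, decide_eq_true ⟨h3.1, h3.2, h4⟩⟩, rfl⟩
    · refine List.mem_append_left _ (mem_dg.2 ⟨h3.1, ?_⟩)
      exact List.mem_map.2 ⟨z, List.mem_filter.2 ⟨hz, decide_eq_true ⟨h3.1, h3.2, h4⟩⟩, rfl⟩
  · exact List.mem_append_right _ (List.mem_append_right _ (List.mem_append_right _ h))

end Pool.Agent.CR
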